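import Mathlib

/-! # Nodal domains of eigenfunctions of Hecke operators on `G / K`

Abstract part: a group `G`, a subgroup `K`, a non-negative finitely supported
`K`-invariant function `a` on `G / K`, the operator `(A F)(gK) = ∑ a(y) F(g y)`. -/

namespace Pool.Agent.Q212.SC

universe u

variable {G : Type u} [Group G] {K : Subgroup G}

/-- The base vertex of `G / K`. -/
def base (K : Subgroup G) : G ⧸ K := ((1 : G) : G ⧸ K)

/-- The value at `gK` of the function `A F`, `(A F)(gK) = ∑ a(y) F(g y)`. -/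
noncomputable def act (a : G ⧸ K →₀ ℝ) (F : G ⧸ K → ℝ) (g : G) : ℝ :=
  ∑ y ∈ a.support, a y * F (g • y)

/-- Non-negative elements of the Hecke algebra of the pair `(G, K)`. -/
structure IsHecke (a : G ⧸ K →₀ ℝ) : Prop where
  nonneg : ∀ y, 0 ≤ a y
  inv : ∀ k ∈ K, ∀ y, a (k • y) = a y

/-- `y` is a neighbour of `x`: `y = g z`, `x = gK`, `a(z) ≠ 0`. -/
def Adj (a : G ⧸ K →₀ ℝ) (x y : G ⧸ K) : Prop :=
  ∃ g : G, x = g • base K ∧ ∃ z, a z ≠ 0 ∧ y = g • z

/-- `A F = L F`. -/
def IsEigen (a : G ⧸ K →₀ ℝ) (L : ℝ) (F : G ⧸ K → ℝ) : Prop :=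
  ∀ g : G, act a F g = L * F (g • base K)

/-- The vertices outside `W` where `F` is positive and which are neighbours of points of `W`. -/
def outer (a : G ⧸ K →₀ ℝ) (F : G ⧸ K → ℝ) (W : Set (G ⧸ K)) : Set (G ⧸ K) :=
  {v | v ∉ W ∧ 0 < F v ∧ ∃ x ∈ W, Adj a x v}

/-- Positive functions on `G / K` which are multiplicative under the set `B`. -/
structure Horo (B : Set G) (w : G ⧸ K → ℝ) : Prop where
  pos : ∀ x, 0 < w x
  mul : ∀ b ∈ B, ∀ x, w (b • x) = w (b • base K) * w x

/-- The Satake transform `∑ a(y) w(y)`. -/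
noncomputable def satake (a : G ⧸ K →₀ ℝ) (w : G ⧸ K → ℝ) : ℝ :=
  ∑ y ∈ a.support, a y * w y

/-- The gauge `inf_g w(g x) / w(g v)`. -/
noncomputable def gauge (w : G ⧸ K → ℝ) (x v : G ⧸ K) : ℝ :=
  ⨅ g : G, w (g • x) / w (g • v)

theorem exists_rep (x : G ⧸ K) : ∃ g : G, g • base K = x := by
  obtain ⟨g, rfl⟩ := QuotientGroup.mk_surjective x
  refine ⟨g, ?_⟩
  rw [base, MulAction.Quotient.smul_coe]
  simp

theorem smul_base_eq {g h : G} (e : g • base K = h • base K) : ∃ k ∈ K, h = g * k := by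
  rw [base, MulAction.Quotient.smul_coe, MulAction.Quotient.smul_coe] at e
  simp only [smul_eq_mul, mul_one] at e
  exact ⟨g⁻¹ * h, QuotientGroup.eq.mp e, by group⟩

theorem sum_reindex {a : G ⧸ K →₀ ℝ} (ha : IsHecke a) {k : G} (hk : k ∈ K)
    (f : G ⧸ K → ℝ) :
    ∑ y ∈ a.support, a y * f (k • y) = ∑ y ∈ a.support, a y * f y := by
  refine Finset.sum_bij (fun y _ => k • y) ?_ ?_ ?_ ?_
  · intro y hy
    rw [Finsupp.mem_support_iff] at hy ⊢
    rwa [ha.inv k hk]
  · intro y _ z _ h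
    exact smul_left_cancel k h
  · intro y hy
    refine ⟨k⁻¹ • y, ?_, by simp⟩
    rw [Finsupp.mem_support_iff] at hy ⊢
    rwa [ha.inv _ (K.inv_mem hk)]
  · intro y _
    rw [ha.inv k hk]

theorem act_horo {a : G ⧸ K →₀ ℝ} (ha : IsHecke a) {B : Set G}
    (hB : ∀ g : G, ∃ b ∈ B, ∃ k ∈ K, g = b * k) {w : G ⧸ K → ℝ} (hw : Horo B w) :
    IsEigen a (satake a w) w := by
  intro g
  obtain ⟨b, hb, k, hk, rfl⟩ := hB g
  have e1 : (b * k) • base K = b • base K := by
    rw [mul_smul]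
    congr 1
    rw [base, MulAction.Quotient.smul_coe]
    simp only [smul_eq_mul, mul_one]
    rw [QuotientGroup.eq]
    simpa using hk
  rw [e1]
  unfold act satake
  calc ∑ y ∈ a.support, a y * w ((b * k) • y)
      = ∑ y ∈ a.support, w (b • base K) * (a y * w (k • y)) := by
        refine Finset.sum_congr rfl fun y _ => ?_
        rw [mul_smul, hw.mul b hb]
        ring
    _ = w (b • base K) * ∑ y ∈ a.support, a y * w (k • y) := by
        rw [Finset.mul_sum]
    _ = w (b • base K) * ∑ y ∈ a.support, a y * w y := by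
        rw [sum_reindex ha hk]
    _ = _ := by ring

theorem satake_nonneg {a : G ⧸ K →₀ ℝ} (ha : IsHecke a) {w : G ⧸ K → ℝ}
    (hw : ∀ x, 0 < w x) : 0 ≤ satake a w :=
  Finset.sum_nonneg fun y _ => mul_nonneg (ha.nonneg y) (hw y).le

/-- The quadratic form of the operator `A` on finitely supported functions. -/
noncomputable def quad (a : G ⧸ K →₀ ℝ) (f : G ⧸ K →₀ ℝ) : ℝ :=
  ∑ x ∈ f.support, f x * act a f x.out

/-- `⟨A f, f⟩ ≤ N ⟨f, f⟩` for all finitely supported `f ≥ 0`. If `A` is symmetric this means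
that the norm of `A` on `ℓ²(G / K)` is at most `N`. -/
def Bound (a : G ⧸ K →₀ ℝ) (N : ℝ) : Prop :=
  ∀ f : G ⧸ K →₀ ℝ, (∀ x, 0 ≤ f x) → quad a f ≤ N * ∑ x ∈ f.support, f x ^ 2

/-- Symmetric elements of the Hecke algebra. -/
def Symm (a : G ⧸ K →₀ ℝ) : Prop := ∀ g : G, a (g⁻¹ • base K) = a (g • base K)

theorem out_smul_base (x : G ⧸ K) : x.out • base K = x := by
  rw [base, MulAction.Quotient.smul_coe]
  simp

theorem act_eq_sum {a : G ⧸ K →₀ ℝ} (f : G ⧸ K → ℝ) (S : Finset (G ⧸ K))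
    (hf : ∀ x, x ∉ S → f x = 0) (g : G) :
    act a f g = ∑ y ∈ S, a (g⁻¹ • y) * f y := by
  classical
  unfold act
  have h1 : ∑ y ∈ a.support, a y * f (g • y) =
      ∑ y ∈ a.support.image (fun y => g • y), a (g⁻¹ • y) * f y := by
    rw [Finset.sum_image (fun x _ y _ h => smul_left_cancel g h)]
    refine Finset.sum_congr rfl fun y _ => ?_
    rw [inv_smul_smul]
  rw [h1]
  have h2 : ∑ y ∈ a.support.image (fun y => g • y), a (g⁻¹ • y) * f y =
      ∑ y ∈ a.support.image (fun y => g • y) ∪ S, a (g⁻¹ • y) * f y := by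
    refine Finset.sum_subset Finset.subset_union_left fun y _ hy => ?_
    have : a (g⁻¹ • y) = 0 := by
      by_contra hne
      exact hy (Finset.mem_image.mpr ⟨g⁻¹ • y, Finsupp.mem_support_iff.mpr hne, by simp⟩)
    rw [this, zero_mul]
  rw [h2]
  symm
  refine Finset.sum_subset Finset.subset_union_right fun y _ hy => ?_
  rw [hf y hy, mul_zero]

/-- The Schur test. -/
theorem bound_of_super {a : G ⧸ K →₀ ℝ} (ha : IsHecke a) (hs : Symm a) {w0 : G ⧸ K → ℝ}
    (hw0 : ∀ x, 0 < w0 x) {N : ℝ} (hN : ∀ g : G, act a w0 g ≤ N * w0 (g • base K)) :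
    Bound a N := by
  classical
  intro f _
  set S := f.support with hS
  have hf0 : ∀ x, x ∉ S → f x = 0 := fun x hx => Finsupp.notMem_support_iff.mp hx
  set A : G ⧸ K → G ⧸ K → ℝ := fun x y => a (x.out⁻¹ • y) with hA
  have hA0 : ∀ x y, 0 ≤ A x y := fun x y => ha.nonneg _
  have hAs : ∀ x y, A x y = A y x := by
    intro x y
    have h1 := hs (x.out⁻¹ * y.out)
    rw [mul_inv_rev, inv_inv, mul_smul, mul_smul, out_smul_base, out_smul_base] at h1
    exact h1.symm
  have hq : quad a f = ∑ x ∈ S, ∑ y ∈ S, A x y * (f x * f y) := by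
    unfold quad
    refine Finset.sum_congr rfl fun x _ => ?_
    rw [act_eq_sum f S hf0, Finset.mul_sum]
    refine Finset.sum_congr rfl fun y _ => ?_
    simp only [hA]
    ring
  have hr : ∀ x, ∑ y ∈ S, A x y * w0 y ≤ N * w0 x := by
    intro x
    have h1 := hN x.out
    rw [out_smul_base] at h1
    refine le_trans ?_ h1
    have h2 : act a w0 x.out = ∑ y ∈ a.support.image (fun y => x.out • y),
        a (x.out⁻¹ • y) * w0 y := by
      unfold act
      rw [Finset.sum_image (fun u _ v _ h => smul_left_cancel _ h)]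
      refine Finset.sum_congr rfl fun y _ => ?_
      rw [inv_smul_smul]
    have h3 : ∑ y ∈ a.support.image (fun y => x.out • y), a (x.out⁻¹ • y) * w0 y =
        ∑ y ∈ a.support.image (fun y => x.out • y) ∪ S, a (x.out⁻¹ • y) * w0 y := by
      refine Finset.sum_subset Finset.subset_union_left fun y _ hy => ?_
      have : a (x.out⁻¹ • y) = 0 := by
        by_contra hne
        exact hy (Finset.mem_image.mpr
          ⟨x.out⁻¹ • y, Finsupp.mem_support_iff.mpr hne, by simp⟩)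
      rw [this, zero_mul]
    rw [h2, h3]
    exact Finset.sum_le_sum_of_subset_of_nonneg Finset.subset_union_right
      fun y _ _ => mul_nonneg (ha.nonneg _) (hw0 y).le
  have hpt : ∀ x y, A x y * (f x * f y) ≤
      1 / 2 * (A x y * w0 y * (f x ^ 2 / w0 x)) + 1 / 2 * (A y x * w0 x * (f y ^ 2 / w0 y)) := by
    intro x y
    rw [hAs y x]
    have hx := hw0 x
    have hy := hw0 y
    have h1 : f x * f y ≤ 1 / 2 * (w0 y * (f x ^ 2 / w0 x)) + 1 / 2 * (w0 x * (f y ^ 2 / w0 y)) := by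
      have h2 : 1 / 2 * (w0 y * (f x ^ 2 / w0 x)) + 1 / 2 * (w0 x * (f y ^ 2 / w0 y)) - f x * f y
          = (w0 y * f x - w0 x * f y) ^ 2 / (2 * w0 x * w0 y) := by
        field_simp
        ring
      have h3 : 0 ≤ (w0 y * f x - w0 x * f y) ^ 2 / (2 * w0 x * w0 y) := by positivity
      linarith
    calc A x y * (f x * f y)
        ≤ A x y * (1 / 2 * (w0 y * (f x ^ 2 / w0 x)) + 1 / 2 * (w0 x * (f y ^ 2 / w0 y))) :=
          mul_le_mul_of_nonneg_left h1 (hA0 x y)
      _ = _ := by ring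
  rw [hq]
  have hsum : ∑ x ∈ S, ∑ y ∈ S, A x y * w0 y * (f x ^ 2 / w0 x) ≤ N * ∑ x ∈ S, f x ^ 2 := by
    rw [Finset.mul_sum]
    refine Finset.sum_le_sum fun x _ => ?_
    rw [← Finset.sum_mul]
    have hx := hw0 x
    calc (∑ y ∈ S, A x y * w0 y) * (f x ^ 2 / w0 x)
        ≤ (N * w0 x) * (f x ^ 2 / w0 x) := mul_le_mul_of_nonneg_right (hr x) (by positivity)
      _ = N * f x ^ 2 := by field_simp
  calc ∑ x ∈ S, ∑ y ∈ S, A x y * (f x * f y)
      ≤ ∑ x ∈ S, ∑ y ∈ S, (1 / 2 * (A x y * w0 y * (f x ^ 2 / w0 x)) +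
          1 / 2 * (A y x * w0 x * (f y ^ 2 / w0 y))) :=
        Finset.sum_le_sum fun x _ => Finset.sum_le_sum fun y _ => hpt x y
    _ = 1 / 2 * (∑ x ∈ S, ∑ y ∈ S, A x y * w0 y * (f x ^ 2 / w0 x)) +
          1 / 2 * (∑ x ∈ S, ∑ y ∈ S, A y x * w0 x * (f y ^ 2 / w0 y)) := by
        simp only [Finset.sum_add_distrib, Finset.mul_sum]
    _ = ∑ x ∈ S, ∑ y ∈ S, A x y * w0 y * (f x ^ 2 / w0 x) := by
        have e : ∑ x ∈ S, ∑ y ∈ S, A y x * w0 x * (f y ^ 2 / w0 y) =
            ∑ x ∈ S, ∑ y ∈ S, A x y * w0 y * (f x ^ 2 / w0 x) := Finset.sum_comm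
        rw [e]
        ring
    _ ≤ N * ∑ x ∈ S, f x ^ 2 := hsum

theorem act_rep {a : G ⧸ K →₀ ℝ} (ha : IsHecke a) (f : G ⧸ K → ℝ) {g h : G}
    (e : g • base K = h • base K) : act a f g = act a f h := by
  obtain ⟨k, hk, rfl⟩ := smul_base_eq e
  unfold act
  have := sum_reindex ha hk (fun y => f (g • y))
  simp only [mul_smul]
  exact this.symm

/-- The maximum principle. -/
theorem max_principle {a : G ⧸ K →₀ ℝ} (ha : IsHecke a) {N L : ℝ} (hN : Bound a N)
    (hL : N < L) (W : Finset (G ⧸ K)) (f : G ⧸ K → ℝ)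
    (hf : ∀ g : G, g • base K ∈ W → L * f (g • base K) ≤ act a f g)
    (hout : ∀ x ∈ W, ∀ y, Adj a x y → y ∉ W → f y ≤ 0) : ∀ x ∈ W, f x ≤ 0 := by
  classical
  let u : G ⧸ K →₀ ℝ := Finsupp.onFinset W (fun x => if x ∈ W then max (f x) 0 else 0)
    (fun x hx => by
      by_contra hW
      simp [hW] at hx)
  have hu : ∀ x, u x = if x ∈ W then max (f x) 0 else 0 := fun x => rfl
  have hu0 : ∀ x, 0 ≤ u x := by
    intro x
    rw [hu]
    split_ifs
    · exact le_max_right _ _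
    · exact le_rfl
  have hsupp : ∀ x ∈ u.support, x ∈ W ∧ 0 < f x ∧ u x = f x := by
    intro x hx
    rw [Finsupp.mem_support_iff, hu] at hx
    by_cases hW : x ∈ W
    · rw [if_pos hW] at hx
      have hpos : 0 < f x := by
        by_contra hcon
        exact hx (max_eq_right (not_lt.mp hcon))
      refine ⟨hW, hpos, ?_⟩
      rw [hu, if_pos hW, max_eq_left hpos.le]
    · rw [if_neg hW] at hx
      exact absurd rfl hx
  have key : L * ∑ x ∈ u.support, u x ^ 2 ≤ quad a u := by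
    unfold quad
    rw [Finset.mul_sum]
    refine Finset.sum_le_sum fun x hx => ?_
    obtain ⟨hW, hpos, he⟩ := hsupp x hx
    have h1 : act a f x.out ≤ act a u x.out := by
      unfold act
      refine Finset.sum_le_sum fun z hz => mul_le_mul_of_nonneg_left ?_ (ha.nonneg z)
      rw [hu]
      split_ifs with hz'
      · exact le_max_left _ _
      · exact hout x hW _ ⟨x.out, (out_smul_base x).symm, z, Finsupp.mem_support_iff.mp hz, rfl⟩
          hz'
    have h2 := hf x.out (by rw [out_smul_base]; exact hW)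
    rw [out_smul_base] at h2
    have h3 : f x * (L * f x) ≤ f x * act a u x.out :=
      mul_le_mul_of_nonneg_left (h2.trans h1) hpos.le
    rw [he]
    calc L * f x ^ 2 = f x * (L * f x) := by ring
      _ ≤ _ := h3
  have h4 := key.trans (hN u hu0)
  have h5 : ∑ x ∈ u.support, u x ^ 2 = 0 := by
    have h6 : 0 ≤ ∑ x ∈ u.support, u x ^ 2 := Finset.sum_nonneg fun x _ => sq_nonneg _
    nlinarith
  intro x hx
  by_contra hcon
  push Not at hcon
  have hux : u x = f x := by rw [hu, if_pos hx, max_eq_left hcon.le]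
  have hxs : x ∈ u.support := by
    rw [Finsupp.mem_support_iff, hux]
    exact hcon.ne'
  have h7 := (Finset.sum_eq_zero_iff_of_nonneg (fun x _ => sq_nonneg (u x))).mp h5 x hxs
  rw [hux] at h7
  exact hcon.ne' (pow_eq_zero_iff two_ne_zero |>.mp h7)

theorem gauge_bdd {w : G ⧸ K → ℝ} (hw : ∀ x, 0 < w x) (x v : G ⧸ K) :
    BddBelow (Set.range fun g : G => w (g • x) / w (g • v)) :=
  ⟨0, by rintro _ ⟨g, rfl⟩; exact (div_pos (hw _) (hw _)).le⟩

theorem gauge_le {w : G ⧸ K → ℝ} (hw : ∀ x, 0 < w x) (x v : G ⧸ K) (g : G) :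
    gauge w x v ≤ w (g • x) / w (g • v) :=
  ciInf_le (gauge_bdd hw x v) g

theorem gauge_nonneg {w : G ⧸ K → ℝ} (hw : ∀ x, 0 < w x) (x v : G ⧸ K) :
    0 ≤ gauge w x v :=
  le_ciInf fun _ => (div_pos (hw _) (hw _)).le

theorem gauge_self {w : G ⧸ K → ℝ} (hw : ∀ x, 0 < w x) (v : G ⧸ K) :
    gauge w v v = 1 := by
  unfold gauge
  have : (fun g : G => w (g • v) / w (g • v)) = fun _ => 1 := by
    funext g
    exact div_self (hw _).ne'
  rw [this, ciInf_const]

theorem gauge_smul {w : G ⧸ K → ℝ} (x v : G ⧸ K) (h : G) :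
    gauge w (h • x) (h • v) = gauge w x v := by
  unfold gauge
  refine (Equiv.mulRight h).iInf_congr fun g => ?_
  simp [mul_smul]

theorem gauge_super {a : G ⧸ K →₀ ℝ} (ha : IsHecke a) {w : G ⧸ K → ℝ}
    (hw : ∀ x, 0 < w x) {L : ℝ} (hL : 0 ≤ L)
    (hs : ∀ g : G, act a w g ≤ L * w (g • base K)) (v : G ⧸ K) (g : G) :
    act a (fun x => gauge w x v) g ≤ L * gauge w (g • base K) v := by
  have key : ∀ h : G, act a (fun x => gauge w x v) g ≤
      L * (w (h • g • base K) / w (h • v)) := by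
    intro h
    calc act a (fun x => gauge w x v) g
        ≤ ∑ y ∈ a.support, a y * (w (h • g • y) / w (h • v)) := by
          refine Finset.sum_le_sum fun y _ => ?_
          exact mul_le_mul_of_nonneg_left (gauge_le hw _ v h) (ha.nonneg y)
      _ = act a w (h * g) / w (h • v) := by
          unfold act
          rw [Finset.sum_div]
          refine Finset.sum_congr rfl fun y _ => ?_
          rw [mul_smul, mul_div_assoc]
      _ ≤ (L * w ((h * g) • base K)) / w (h • v) :=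
          div_le_div_of_nonneg_right (hs (h * g)) (hw _).le
      _ = L * (w (h • g • base K) / w (h • v)) := by
          rw [mul_smul, mul_div_assoc]
  have : L * gauge w (g • base K) v = ⨅ h : G, L * (w (h • g • base K) / w (h • v)) := by
    unfold gauge
    rw [Real.mul_iInf_of_nonneg hL]
  rw [this]
  exact le_ciInf key

theorem adj_finite {a : G ⧸ K →₀ ℝ} (ha : IsHecke a) (x : G ⧸ K) :
    {y | Adj a x y}.Finite := by
  obtain ⟨g, hg⟩ := exists_rep x
  refine ((a.support.finite_toSet).image (fun z => g • z)).subset ?_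
  rintro y ⟨h, hx, z, hz, rfl⟩
  obtain ⟨k, hk, rfl⟩ := smul_base_eq (hg.trans hx)
  refine ⟨k • z, ?_, ?_⟩
  · rw [Finset.mem_coe, Finsupp.mem_support_iff, ha.inv k hk]
    exact hz
  · simp [mul_smul]

theorem outer_finite {a : G ⧸ K →₀ ℝ} (ha : IsHecke a) (F : G ⧸ K → ℝ)
    {W : Set (G ⧸ K)} (hW : W.Finite) : (outer a F W).Finite := by
  refine (hW.biUnion fun x _ => adj_finite ha x).subset ?_
  rintro v ⟨_, _, x, hx, hadj⟩
  exact Set.mem_biUnion hx hadj

/-- The Poisson inequality for finite sets. -/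
theorem poisson {a : G ⧸ K →₀ ℝ} (ha : IsHecke a) {w : G ⧸ K → ℝ}
    (hw : ∀ x, 0 < w x) {N L : ℝ} (hN : Bound a N) (hNL : N < L) (hL : 0 ≤ L)
    (hs : ∀ g : G, act a w g ≤ L * w (g • base K))
    {F : G ⧸ K → ℝ} (W : Finset (G ⧸ K)) 
    (hF : ∀ g : G, g • base K ∈ W → L * F (g • base K) ≤ act a F g)
    {x : G ⧸ K} (hx : x ∈ W) :
    F x ≤ ∑ᶠ v ∈ outer a F W, F v * gauge w x v := by
  classical
  have hfin := outer_finite ha F W.finite_toSet
  rw [finsum_mem_eq_finite_toFinset_sum _ hfin]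
  set E := hfin.toFinset with hE
  have hEmem : ∀ v, v ∈ E ↔ v ∈ outer a F (W : Set (G ⧸ K)) := fun v => by
    rw [hE, Set.Finite.mem_toFinset]
  set f : G ⧸ K → ℝ := fun x => F x - ∑ v ∈ E, F v * gauge w x v with hf
  have hEpos : ∀ v ∈ E, 0 < F v := fun v hv => ((hEmem v).mp hv).2.1
  have hsum_nonneg : ∀ x, 0 ≤ ∑ v ∈ E, F v * gauge w x v := fun x =>
    Finset.sum_nonneg fun v hv => mul_nonneg (hEpos v hv).le (gauge_nonneg hw _ _)
  have hact : ∀ g : G, act a f g =
      act a F g - ∑ v ∈ E, F v * act a (fun x => gauge w x v) g := by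
    intro g
    unfold act
    simp only [hf, mul_sub, Finset.sum_sub_distrib]
    congr 1
    simp only [Finset.mul_sum]
    rw [Finset.sum_comm]
    refine Finset.sum_congr rfl fun v _ => Finset.sum_congr rfl fun y _ => ?_
    ring
  have hmax := max_principle ha hN hNL W f ?_ ?_ x hx
  · simp only [hf] at hmax
    linarith
  · intro g hg
    rw [hact]
    have h1 : ∑ v ∈ E, F v * act a (fun x => gauge w x v) g ≤
        ∑ v ∈ E, F v * (L * gauge w (g • base K) v) :=
      Finset.sum_le_sum fun v hv =>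
        mul_le_mul_of_nonneg_left (gauge_super ha hw hL hs v g) (hEpos v hv).le
    have h2 : ∑ v ∈ E, F v * (L * gauge w (g • base K) v) =
        L * ∑ v ∈ E, F v * gauge w (g • base K) v := by
      rw [Finset.mul_sum]
      refine Finset.sum_congr rfl fun v _ => ?_
      ring
    have h3 := hF g hg
    simp only [hf]
    nlinarith [h1, h2, h3]
  · intro z hz y hadj hy
    by_cases hFy : 0 < F y
    · have hyE : y ∈ E := (hEmem y).mpr ⟨by simpa using hy, hFy, z, by simpa using hz, hadj⟩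
      have h1 : F y * gauge w y y ≤ ∑ v ∈ E, F v * gauge w y v :=
        Finset.single_le_sum (f := fun v => F v * gauge w y v)
          (fun v hv => mul_nonneg (hEpos v hv).le (gauge_nonneg hw _ _)) hyE
      rw [gauge_self hw, mul_one] at h1
      simp only [hf]
      linarith
    · have := hsum_nonneg y
      simp only [hf]
      push Not at hFy
      linarith

/-- The points that can be reached from `x` through points of `{F > 0}` outside `P`. -/
def reach (a : G ⧸ K →₀ ℝ) (F : G ⧸ K → ℝ) (P : Set (G ⧸ K)) (x : G ⧸ K) : Set (G ⧸ K) :=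
  {y | Relation.ReflTransGen (fun u v => Adj a u v ∧ 0 < F v ∧ v ∉ P) x y}

/-- The nodal domain of `x`. -/
def nodal (a : G ⧸ K →₀ ℝ) (F : G ⧸ K → ℝ) (x : G ⧸ K) : Set (G ⧸ K) :=
  {y | Relation.ReflTransGen (fun u v => Adj a u v ∧ 0 < F v) x y}

theorem reach_subset (a : G ⧸ K →₀ ℝ) (F : G ⧸ K → ℝ) (P : Set (G ⧸ K)) (x : G ⧸ K) :
    reach a F P x ⊆ nodal a F x := fun _ hy =>
  Relation.ReflTransGen.mono (fun _ _ h => ⟨h.1, h.2.1⟩) _ _ hy

theorem outer_reach (a : G ⧸ K →₀ ℝ) (F : G ⧸ K → ℝ) (P : Set (G ⧸ K)) (x : G ⧸ K) :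
    outer a F (reach a F P x) ⊆ P ∩ nodal a F x := by
  rintro v ⟨hv, hpos, z, hz, hadj⟩
  constructor
  · by_contra hP
    exact hv (Relation.ReflTransGen.tail hz ⟨hadj, hpos, hP⟩)
  · exact Relation.ReflTransGen.tail (reach_subset a F P x hz) ⟨hadj, hpos⟩

end Pool.Agent.Q212.SC
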