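import Mathlib
import Pool.Agent.Q212.SC.Abs

/-! # The exit inequality, pointwise and averaged -/

namespace Pool.Agent.Q212.SC

universe u v

open MeasureTheory

variable {G : Type u} [Group G] {K : Subgroup G}

/-- The outer vertex boundary of a set of vertices. -/
def bdry (a : G ⧸ K →₀ ℝ) (W : Set (G ⧸ K)) : Set (G ⧸ K) :=
  {v | v ∉ W ∧ ∃ x ∈ W, Adj a x v}

theorem bdry_finite {a : G ⧸ K →₀ ℝ} (ha : IsHecke a) {W : Set (G ⧸ K)} (hW : W.Finite) :
    (bdry a W).Finite := by
  refine (hW.biUnion fun x _ => adj_finite ha x).subset ?_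
  rintro v ⟨_, x, hx, hadj⟩
  exact Set.mem_biUnion hx hadj

/-- The exit inequality. -/
theorem exit {a : G ⧸ K →₀ ℝ} (ha : IsHecke a) {B : Set G}
    (hB : ∀ g : G, ∃ b ∈ B, ∃ k ∈ K, g = b * k) {w : G ⧸ K → ℝ} (hw : Horo B w)
    {N L : ℝ} (hN : Bound a N) (h0 : N < L) (h1 : satake a w ≤ L)
    {F : G ⧸ K → ℝ} (hF : IsEigen a L F) (W : Finset (G ⧸ K)) {x : G ⧸ K} (hx : x ∈ W) :
    F x ≤ ∑ᶠ v ∈ bdry a W ∩ nodal a F x, F v * gauge w x v := by
  classical
  set W' : Finset (G ⧸ K) := W.filter fun y => y ∈ nodal a F x with hW'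
  have hxW' : x ∈ W' := by
    rw [hW', Finset.mem_filter]
    exact ⟨hx, Relation.ReflTransGen.refl⟩
  have key := poisson ha hw.pos hN h0
    ((satake_nonneg ha hw.pos).trans h1)
    (fun g => (act_horo ha hB hw g).le.trans
      (mul_le_mul_of_nonneg_right h1 (hw.pos _).le)) W' (fun g _ => (hF g).ge) hxW'
  refine key.trans ?_
  have hfin1 := outer_finite ha F W'.finite_toSet
  have hfin2 : (bdry a W ∩ nodal a F x).Finite :=
    (bdry_finite ha W.finite_toSet).inter_of_left _
  have hsub : outer a F W' ⊆ bdry a W ∩ nodal a F x := by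
    rintro v ⟨hv, hpos, z, hz, hadj⟩
    have hz' : z ∈ W ∧ z ∈ nodal a F x := by simpa [hW'] using hz
    have hnod : v ∈ nodal a F x := Relation.ReflTransGen.tail hz'.2 ⟨hadj, hpos⟩
    refine ⟨⟨fun hvW => hv ?_, z, hz'.1, hadj⟩, hnod⟩
    rw [Finset.mem_coe, hW', Finset.mem_filter]
    exact ⟨hvW, hnod⟩
  rw [finsum_mem_eq_finite_toFinset_sum _ hfin1, finsum_mem_eq_finite_toFinset_sum _ hfin2]
  refine Finset.sum_le_sum_of_subset_of_nonneg
    (by simpa using hsub) fun v hv _ => ?_
  rw [Set.Finite.mem_toFinset] at hv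
  refine mul_nonneg ?_ (gauge_nonneg hw.pos _ _)
  rcases Relation.ReflTransGen.cases_tail hv.2 with h | ⟨z, _, hz⟩
  · exfalso
    exact hv.1.1 (h ▸ hx)
  · exact hz.2.le

theorem nodal_infinite {a : G ⧸ K →₀ ℝ} (ha : IsHecke a) {N L : ℝ} (hN : Bound a N)
    (h0 : N < L) {F : G ⧸ K → ℝ} (hF : IsEigen a L F) {x : G ⧸ K} (hx : 0 < F x) :
    (nodal a F x).Infinite := by
  intro hfin
  have key := max_principle ha hN h0 hfin.toFinset F (fun g _ => (hF g).ge) ?_ x
    (by rw [Set.Finite.mem_toFinset]; exact Relation.ReflTransGen.refl)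
  · linarith
  · intro z hz y hadj hy
    rw [Set.Finite.mem_toFinset] at hz hy
    by_contra hcon
    push Not at hcon
    exact hy (Relation.ReflTransGen.tail hz ⟨hadj, hcon⟩)

/-- Nodal domains of bounded eigenfunctions return infinitely often to the complement
of every horoball. -/
theorem horoballs {a : G ⧸ K →₀ ℝ} (ha : IsHecke a) {B : Set G}
    (hB : ∀ g : G, ∃ b ∈ B, ∃ k ∈ K, g = b * k) {w : G ⧸ K → ℝ} (hw : Horo B w)
    {N L : ℝ} (hN : Bound a N) (h0 : N < L) (h1 : satake a w ≤ L)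
    {F : G ⧸ K → ℝ} (hF : IsEigen a L F) {x : G ⧸ K} (hx : 0 < F x) {M : ℝ}
    (hM : ∀ y ∈ nodal a F x, F y ≤ M) (g : G) {C : ℝ} (hC : M * w (g • x) < C * F x) :
    {y ∈ nodal a F x | w (g • y) ≤ C}.Infinite := by
  intro hfin
  have hMpos : 0 < M := hx.trans_le (hM x Relation.ReflTransGen.refl)
  have hCpos : 0 < C := by
    have : 0 < C * F x := (mul_pos hMpos (hw.pos _)).trans hC
    exact pos_of_mul_pos_left this hx.le
  have hwx : w (g • x) ≤ C := by
    have h2 : F x * w (g • x) ≤ M * w (g • x) :=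
      mul_le_mul_of_nonneg_right (hM x Relation.ReflTransGen.refl) (hw.pos _).le
    have h3 : F x * w (g • x) < F x * C := by linarith
    exact (lt_of_mul_lt_mul_left h3 hx.le).le
  set f : G ⧸ K → ℝ := fun y => F y - M / C * w (g • y) with hf
  have hc : 0 < M / C := div_pos hMpos hCpos
  have hact : ∀ h : G, act a f h = act a F h - M / C * act a w (g * h) := by
    intro h
    unfold act
    simp only [hf, mul_sub, Finset.sum_sub_distrib]
    congr 1
    rw [Finset.mul_sum]
    refine Finset.sum_congr rfl fun y _ => ?_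
    rw [mul_smul]
    ring
  have hmax := max_principle ha hN h0 hfin.toFinset f ?_ ?_ x ?_
  · have h2 : M / C * w (g • x) < F x := by
      rw [div_mul_eq_mul_div, div_lt_iff₀ hCpos]
      linarith
    simp only [hf] at hmax
    linarith
  · intro h _
    rw [hact, act_horo ha hB hw (g * h)]
    have h3 := hF h
    have h4 : M / C * (satake a w * w ((g * h) • base K)) ≤
        M / C * (L * w ((g * h) • base K)) :=
      mul_le_mul_of_nonneg_left (mul_le_mul_of_nonneg_right h1 (hw.pos _).le) hc.le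
    simp only [hf]
    rw [← mul_smul]
    linarith
  · intro z hz y hadj hy
    rw [Set.Finite.mem_toFinset] at hz hy
    have hw' := mul_pos hc (hw.pos (g • y))
    by_cases hFy : 0 < F y
    · have hyn : y ∈ nodal a F x := Relation.ReflTransGen.tail hz.1 ⟨hadj, hFy⟩
      have h5 : C < w (g • y) := by
        by_contra hcon
        exact hy ⟨hyn, not_lt.mp hcon⟩
      have h6 : M / C * C ≤ M / C * w (g • y) := mul_le_mul_of_nonneg_left h5.le hc.le
      rw [div_mul_cancel₀ _ hCpos.ne'] at h6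
      simp only [hf]
      linarith [hM y hyn]
    · simp only [hf]
      push Not at hFy
      linarith
  · rw [Set.Finite.mem_toFinset]
    exact ⟨Relation.ReflTransGen.refl, hwx⟩

/-- Cutsets. -/
theorem cutset {a : G ⧸ K →₀ ℝ} (ha : IsHecke a) {B : Set G}
    (hB : ∀ g : G, ∃ b ∈ B, ∃ k ∈ K, g = b * k) {w : G ⧸ K → ℝ} (hw : Horo B w)
    {N L : ℝ} (hN : Bound a N) (h0 : N < L) (h1 : satake a w ≤ L)
    {F : G ⧸ K → ℝ} (hF : IsEigen a L F) {x : G ⧸ K} (P : Set (G ⧸ K))
    (hP : (reach a F P x).Finite) :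
    ∃ E : Finset (G ⧸ K), (E : Set (G ⧸ K)) ⊆ P ∩ nodal a F x ∧
      F x ≤ ∑ v ∈ E, F v * gauge w x v := by
  have key := poisson ha hw.pos hN h0
    ((satake_nonneg ha hw.pos).trans h1)
    (fun g => (act_horo ha hB hw g).le.trans
      (mul_le_mul_of_nonneg_right h1 (hw.pos _).le)) hP.toFinset (fun g _ => (hF g).ge)
      (x := x) (by rw [Set.Finite.mem_toFinset]; exact Relation.ReflTransGen.refl)
  rw [Set.Finite.coe_toFinset] at key
  have hfin := outer_finite ha F hP
  rw [finsum_mem_eq_finite_toFinset_sum _ hfin] at key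
  refine ⟨hfin.toFinset, ?_, key⟩
  rw [Set.Finite.coe_toFinset]
  exact outer_reach a F P x

variable {Ω : Type v} [MeasurableSpace Ω]

theorem nodal_measurable [Countable (G ⧸ K)] (a : G ⧸ K →₀ ℝ) (F : Ω → G ⧸ K → ℝ)
    (hm : ∀ y, Measurable fun ω => F ω y) (x y : G ⧸ K) :
    MeasurableSet {ω | y ∈ nodal a (F ω) x} := by
  have hstep : ∀ (m : ℕ) (y : G ⧸ K), MeasurableSet {ω | ∃ c : ℕ → G ⧸ K, c 0 = x ∧ c m = y ∧
      ∀ i < m, Adj a (c i) (c (i + 1)) ∧ 0 < F ω (c (i + 1))} := by
    intro m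
    induction m with
    | zero =>
      intro y
      by_cases h : x = y
      · have e : {ω | ∃ c : ℕ → G ⧸ K, c 0 = x ∧ c 0 = y ∧
            ∀ i < 0, Adj a (c i) (c (i + 1)) ∧ 0 < F ω (c (i + 1))} = Set.univ :=
          Set.eq_univ_of_forall fun ω =>
            ⟨fun _ => x, rfl, h, fun i hi => absurd hi (by omega)⟩
        rw [e]
        exact MeasurableSet.univ
      · have e : {ω | ∃ c : ℕ → G ⧸ K, c 0 = x ∧ c 0 = y ∧
            ∀ i < 0, Adj a (c i) (c (i + 1)) ∧ 0 < F ω (c (i + 1))} = ∅ := by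
          refine Set.eq_empty_of_forall_notMem fun ω => ?_
          rintro ⟨c, h1, h2, _⟩
          exact h (h1.symm.trans h2)
        rw [e]
        exact MeasurableSet.empty
    | succ m ih =>
      intro y
      have e : {ω | ∃ c : ℕ → G ⧸ K, c 0 = x ∧ c (m + 1) = y ∧
          ∀ i < m + 1, Adj a (c i) (c (i + 1)) ∧ 0 < F ω (c (i + 1))} =
          ⋃ z : G ⧸ K, ({ω | ∃ c : ℕ → G ⧸ K, c 0 = x ∧ c m = z ∧
            ∀ i < m, Adj a (c i) (c (i + 1)) ∧ 0 < F ω (c (i + 1))} ∩
            ({ω | Adj a z y} ∩ {ω | 0 < F ω y})) := by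
        ext ω
        simp only [Set.mem_iUnion, Set.mem_inter_iff, Set.mem_ofPred_eq]
        constructor
        · rintro ⟨c, h0, h1, h2⟩
          have h3 := h2 m (by omega)
          rw [h1] at h3
          exact ⟨c m, ⟨c, h0, rfl, fun i hi => h2 i (by omega)⟩, h3⟩
        · rintro ⟨z, ⟨c, h0, h1, h2⟩, h3, h4⟩
          refine ⟨fun i => if i ≤ m then c i else y, by simp [h0], by simp, fun i hi => ?_⟩
          by_cases him : i < m
          · simpa [him.le, Nat.succ_le_of_lt him] using h2 i him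
          · have : i = m := by omega
            subst this
            simp [h1, h3, h4]
      rw [e]
      refine MeasurableSet.iUnion fun z => (ih z).inter ((MeasurableSet.const _).inter ?_)
      exact measurableSet_lt measurable_const (hm y)
  have e : {ω | y ∈ nodal a (F ω) x} = ⋃ m : ℕ, {ω | ∃ c : ℕ → G ⧸ K, c 0 = x ∧ c m = y ∧
      ∀ i < m, Adj a (c i) (c (i + 1)) ∧ 0 < F ω (c (i + 1))} := by
    ext ω
    simp only [Set.mem_iUnion, Set.mem_ofPred_eq]
    constructor
    · intro h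
      have h' : Relation.ReflTransGen (fun u v => Adj a u v ∧ 0 < F ω v) x y := h
      clear h
      induction h' with
      | refl => exact ⟨0, fun _ => x, rfl, rfl, fun i hi => absurd hi (by omega)⟩
      | @tail u z _ huz ih =>
        obtain ⟨m, c, h0, h1, h2⟩ := ih
        refine ⟨m + 1, fun i => if i ≤ m then c i else z, by simp [h0], by simp, fun i hi => ?_⟩
        by_cases him : i < m
        · simpa [him.le, Nat.succ_le_of_lt him] using h2 i him
        · have : i = m := by omega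
          subst this
          simp [h1, huz.1, huz.2]
    · rintro ⟨m, c, h0, h1, h2⟩
      have : ∀ i ≤ m, Relation.ReflTransGen (fun u v => Adj a u v ∧ 0 < F ω v) x (c i) := by
        intro i
        induction i with
        | zero => intro _; rw [h0]
        | succ i ih => intro hi; exact (ih (by omega)).tail (h2 i (by omega))
      have := this m le_rfl
      rw [h1] at this
      exact this
  rw [e]
  exact MeasurableSet.iUnion fun m => hstep m y

/-- The averaged exit inequality. -/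
theorem exit_avg [Countable (G ⧸ K)] {a : G ⧸ K →₀ ℝ} (ha : IsHecke a) {B : Set G}
    (hB : ∀ g : G, ∃ b ∈ B, ∃ k ∈ K, g = b * k) {w : G ⧸ K → ℝ} (hw : Horo B w)
    {N L : ℝ} (hN : Bound a N) (h0 : N < L) (h1 : satake a w ≤ L)
    (μ : Measure Ω) (F : Ω → G ⧸ K → ℝ) (hm : ∀ y, Measurable fun ω => F ω y)
    (hF : ∀ᵐ ω ∂μ, IsEigen a L (F ω)) (W : Finset (G ⧸ K)) {x : G ⧸ K} (hx : x ∈ W) :
    ∫⁻ ω, ENNReal.ofReal (F ω x) ∂μ ≤
      ∑ v ∈ (bdry_finite ha W.finite_toSet).toFinset, ENNReal.ofReal (gauge w x v) *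
        ∫⁻ ω in {ω | 0 < F ω x ∧ v ∈ nodal a (F ω) x}, ENNReal.ofReal (F ω v) ∂μ := by
  classical
  set N' := (bdry_finite ha W.finite_toSet).toFinset with hN'
  have hms : ∀ v, MeasurableSet {ω | 0 < F ω x ∧ v ∈ nodal a (F ω) x} := fun v =>
    (measurableSet_lt measurable_const (hm x)).inter (nodal_measurable a F hm x v)
  have hpt : ∀ᵐ ω ∂μ, ENNReal.ofReal (F ω x) ≤
      ∑ v ∈ N', ENNReal.ofReal (gauge w x v) *
        ({ω | 0 < F ω x ∧ v ∈ nodal a (F ω) x}.indicator
          (fun ω => ENNReal.ofReal (F ω v)) ω) := by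
    filter_upwards [hF] with ω hω
    by_cases hpos : 0 < F ω x
    · have key := exit ha hB hw hN h0 h1 hω W hx
      have hfin2 : (bdry a W ∩ nodal a (F ω) x).Finite :=
        (bdry_finite ha W.finite_toSet).inter_of_left _
      rw [finsum_mem_eq_finite_toFinset_sum _ hfin2] at key
      have hnn : ∀ v ∈ hfin2.toFinset, 0 ≤ F ω v * gauge w x v := by
        intro v hv
        rw [Set.Finite.mem_toFinset] at hv
        refine mul_nonneg ?_ (gauge_nonneg hw.pos _ _)
        rcases Relation.ReflTransGen.cases_tail hv.2 with h | ⟨z, _, hz⟩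
        · rw [h]
          exact hpos.le
        · exact hz.2.le
      refine (ENNReal.ofReal_le_ofReal key).trans ?_
      rw [ENNReal.ofReal_sum_of_nonneg hnn]
      have hsub : hfin2.toFinset ⊆ N' := by
        rw [hN']
        intro v hv
        rw [Set.Finite.mem_toFinset] at hv ⊢
        exact hv.1
      refine le_trans (le_of_eq ?_) (Finset.sum_le_sum_of_subset hsub)
      refine Finset.sum_congr rfl fun v hv => ?_
      rw [Set.Finite.mem_toFinset] at hv
      rw [Set.indicator_of_mem (show ω ∈ {ω | 0 < F ω x ∧ v ∈ nodal a (F ω) x} from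
        ⟨hpos, hv.2⟩), mul_comm (F ω v), ENNReal.ofReal_mul (gauge_nonneg hw.pos _ _)]
    · rw [ENNReal.ofReal_of_nonpos (not_lt.mp hpos)]
      exact bot_le
  refine (lintegral_mono_ae hpt).trans ?_
  rw [lintegral_finsetSum']
  · refine Finset.sum_le_sum fun v _ => ?_
    rw [lintegral_const_mul' _ _ ENNReal.ofReal_ne_top, lintegral_indicator (hms v)]
  · intro v _
    refine AEMeasurable.const_mul ?_ _
    exact ((hm v).ennreal_ofReal.indicator (hms v)).aemeasurable

end Pool.Agent.Q212.SC
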