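import Mathlib
import Pool.Agent.Q212.SC.Abs

/-! # The Iwasawa decomposition of `GL_n` over a field with an ultrametric norm -/

namespace Pool.Agent.Q212.SC

open Matrix

variable {F : Type*} [NormedField F] [IsUltrametricDist F] {n : ℕ}

/-- Sums of elements of norm at most one. -/
theorem norm_sum_le_one {ι : Type*} (s : Finset ι) (f : ι → F) (h : ∀ i ∈ s, ‖f i‖ ≤ 1) :
    ‖∑ i ∈ s, f i‖ ≤ 1 :=
  IsUltrametricDist.norm_sum_le_of_forall_le_of_nonneg zero_le_one h

/-- Integral matrices. -/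
def Intg (M : Matrix (Fin n) (Fin n) F) : Prop := ∀ i j, ‖M i j‖ ≤ 1

theorem Intg.mul {M N : Matrix (Fin n) (Fin n) F} (hM : Intg M) (hN : Intg N) :
    Intg (M * N) := by
  intro i j
  rw [Matrix.mul_apply]
  refine norm_sum_le_one _ _ fun l _ => ?_
  rw [norm_mul]
  exact mul_le_one₀ (hM i l) (norm_nonneg _) (hN l j)

omit [IsUltrametricDist F] in
theorem Intg.one : Intg (1 : Matrix (Fin n) (Fin n) F) := by
  intro i j
  rw [Matrix.one_apply]
  split_ifs <;> simp

variable (n F) in
/-- The stabiliser `F^* GL_n(O)` of a vertex of the building of `PGL_n`. -/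
def ZK : Subgroup (GL (Fin n) F) where
  carrier := {g | ∃ c : F, c ≠ 0 ∧ Intg (c • (g : Matrix (Fin n) (Fin n) F)) ∧
    Intg (c⁻¹ • ((g⁻¹ : GL (Fin n) F) : Matrix (Fin n) (Fin n) F))}
  one_mem' := ⟨1, one_ne_zero, by simpa using Intg.one, by simpa using Intg.one⟩
  mul_mem' := by
    rintro g h ⟨c, hc, h1, h2⟩ ⟨d, hd, h3, h4⟩
    refine ⟨c * d, mul_ne_zero hc hd, ?_, ?_⟩
    · have := h1.mul h3
      simpa [Matrix.smul_mul, Matrix.mul_smul, smul_smul, mul_comm] using this
    · have := h4.mul h2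
      simpa [Matrix.smul_mul, Matrix.mul_smul, smul_smul, mul_comm] using this
  inv_mem' := by
    rintro g ⟨c, hc, h1, h2⟩
    exact ⟨c⁻¹, inv_ne_zero hc, h2, by simpa using h1⟩

/-- Upper triangular invertible matrices. -/
def Upper (g : GL (Fin n) F) : Prop := ∀ i j : Fin n, j < i → (g : Matrix (Fin n) (Fin n) F) i j = 0

omit [IsUltrametricDist F] in
theorem nonvanish (h : GL (Fin n) F) (r : Fin n) :
    ∃ i j : Fin n, r ≤ i ∧ j ≤ r ∧ (h : Matrix (Fin n) (Fin n) F) i j ≠ 0 := by
  classical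
  by_contra hc
  push Not at hc
  let T : ({j : Fin n // j ≤ r} → F) →ₗ[F] ({i : Fin n // i < r} → F) :=
    Matrix.toLin' (Matrix.of fun i j => (h : Matrix (Fin n) (Fin n) F) i.1 j.1)
  have hlt : Module.finrank F ({i : Fin n // i < r} → F) <
      Module.finrank F ({j : Fin n // j ≤ r} → F) := by
    rw [Module.finrank_fintype_fun_eq_card, Module.finrank_fintype_fun_eq_card,
      Fintype.card_subtype, Fintype.card_subtype]
    refine Finset.card_lt_card ?_
    refine ⟨fun x hx => ?_, fun hsub => ?_⟩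
    · simp only [Finset.mem_filter, Finset.mem_univ, true_and] at hx ⊢
      exact hx.le
    · have : r ∈ Finset.univ.filter fun i : Fin n => i < r :=
        hsub (by simp)
      simp at this
  have hker := LinearMap.ker_ne_bot_of_finrank_lt (f := T) hlt
  obtain ⟨u, hu, hu0⟩ := (Submodule.ne_bot_iff _).mp hker
  rw [LinearMap.mem_ker] at hu
  let v : Fin n → F := fun j => if hj : j ≤ r then u ⟨j, hj⟩ else 0
  have hv : (h : Matrix (Fin n) (Fin n) F).mulVec v = 0 := by
    funext i
    have hs : (h : Matrix (Fin n) (Fin n) F).mulVec v i =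
        ∑ j : {j : Fin n // j ≤ r}, (h : Matrix (Fin n) (Fin n) F) i j.1 * u j := by
      rw [Matrix.mulVec, dotProduct]
      have e1 : ∑ j : Fin n, (h : Matrix (Fin n) (Fin n) F) i j * v j =
          ∑ j ∈ Finset.univ.filter (fun j : Fin n => j ≤ r),
            (h : Matrix (Fin n) (Fin n) F) i j * v j := by
        rw [Finset.sum_filter]
        refine Finset.sum_congr rfl fun j _ => ?_
        by_cases hj : j ≤ r
        · simp [hj]
        · simp [hj, v]
      have e2 : ∑ j ∈ Finset.univ.filter (fun j : Fin n => j ≤ r),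
            (h : Matrix (Fin n) (Fin n) F) i j * v j =
          ∑ j : {j : Fin n // j ≤ r}, (h : Matrix (Fin n) (Fin n) F) i j.1 * v j.1 :=
        Finset.sum_subtype _ (by simp) _
      refine (e1.trans e2).trans (Finset.sum_congr rfl fun j _ => ?_)
      simp [v, j.2]
    rw [hs]
    by_cases hi : i < r
    · have := congrFun hu ⟨i, hi⟩
      simpa [T, Matrix.toLin'_apply, Matrix.mulVec, dotProduct] using this
    · refine Finset.sum_eq_zero fun j _ => ?_
      rw [hc i j.1 (not_lt.mp hi) j.2, zero_mul]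
  apply hu0
  have hv0 : v = 0 := by
    have := congrArg (fun z => ((h⁻¹ : GL (Fin n) F) : Matrix (Fin n) (Fin n) F).mulVec z) hv
    simp only [Matrix.mulVec_mulVec, Matrix.mulVec_zero] at this
    rw [← Units.val_mul, inv_mul_cancel, Units.val_one, Matrix.one_mulVec] at this
    exact this
  funext j
  have := congrFun hv0 j.1
  simpa [v, j.2] using this

/-- The swap of two columns. -/
def swapM (p r : Fin n) : GL (Fin n) F where
  val := Matrix.of fun i j => if i = Equiv.swap p r j then 1 else 0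
  inv := Matrix.of fun i j => if i = Equiv.swap p r j then 1 else 0
  val_inv := by
    ext i j
    rw [Matrix.mul_apply, Matrix.one_apply]
    simp [Matrix.of_apply]
  inv_val := by
    ext i j
    rw [Matrix.mul_apply, Matrix.one_apply]
    simp [Matrix.of_apply]

omit [IsUltrametricDist F] in
theorem mul_swapM (g : GL (Fin n) F) (p r : Fin n) (i j : Fin n) :
    ((g * swapM p r : GL (Fin n) F) : Matrix (Fin n) (Fin n) F) i j =
      (g : Matrix (Fin n) (Fin n) F) i (Equiv.swap p r j) := by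
  rw [Units.val_mul, Matrix.mul_apply]
  simp [swapM]

/-- The elementary matrix `1 - ∑ c_j E_{rj}`, `c_r = 0`. -/
def elemM (r : Fin n) (c : Fin n → F) (hc : c r = 0) : GL (Fin n) F where
  val := Matrix.of fun i j => (if i = j then 1 else 0) - (if i = r then c j else 0)
  inv := Matrix.of fun i j => (if i = j then 1 else 0) + (if i = r then c j else 0)
  val_inv := by
    ext i j
    rw [Matrix.mul_apply, Matrix.one_apply]
    simp only [Matrix.of_apply, sub_mul, mul_add, Finset.sum_sub_distrib, Finset.sum_add_distrib]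
    by_cases hir : i = r
    · subst hir
      simp [hc]
    · simp [hir]
  inv_val := by
    ext i j
    rw [Matrix.mul_apply, Matrix.one_apply]
    simp only [Matrix.of_apply, add_mul, mul_sub, Finset.sum_sub_distrib, Finset.sum_add_distrib]
    by_cases hir : i = r
    · subst hir
      simp [hc]
    · simp [hir]

omit [IsUltrametricDist F] in
theorem mul_elemM (g : GL (Fin n) F) (r : Fin n) (c : Fin n → F) (hc : c r = 0)
    (i j : Fin n) :
    ((g * elemM r c hc : GL (Fin n) F) : Matrix (Fin n) (Fin n) F) i j =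
      (g : Matrix (Fin n) (Fin n) F) i j - (g : Matrix (Fin n) (Fin n) F) i r * c j := by
  rw [Units.val_mul, Matrix.mul_apply]
  simp [elemM, mul_sub, Finset.sum_sub_distrib]

theorem mem_ZK_of_intg {g : GL (Fin n) F} (h1 : Intg (g : Matrix (Fin n) (Fin n) F))
    (h2 : Intg ((g⁻¹ : GL (Fin n) F) : Matrix (Fin n) (Fin n) F)) : g ∈ ZK F n :=
  ⟨1, one_ne_zero, by simpa using h1, by simpa using h2⟩

theorem swapM_mem (p r : Fin n) : swapM (F := F) p r ∈ ZK F n := by
  refine mem_ZK_of_intg ?_ ?_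
  · intro i j
    show ‖(if i = Equiv.swap p r j then (1 : F) else 0)‖ ≤ 1
    split_ifs <;> simp
  · intro i j
    show ‖(if i = Equiv.swap p r j then (1 : F) else 0)‖ ≤ 1
    split_ifs <;> simp

theorem norm_add_le_one {x y : F} (hx : ‖x‖ ≤ 1) (hy : ‖y‖ ≤ 1) : ‖x + y‖ ≤ 1 :=
  (IsUltrametricDist.norm_add_le_max x y).trans (max_le hx hy)

theorem elemM_mem (r : Fin n) (c : Fin n → F) (hc : c r = 0) (h : ∀ j, ‖c j‖ ≤ 1) :
    elemM r c hc ∈ ZK F n := by
  refine mem_ZK_of_intg ?_ ?_
  · intro i j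
    show ‖(if i = j then (1 : F) else 0) - (if i = r then c j else 0)‖ ≤ 1
    rw [sub_eq_add_neg]
    refine norm_add_le_one ?_ ?_
    · split_ifs <;> simp
    · rw [norm_neg]
      split_ifs
      · exact h j
      · simp
  · intro i j
    show ‖(if i = j then (1 : F) else 0) + (if i = r then c j else 0)‖ ≤ 1
    refine norm_add_le_one ?_ ?_
    · split_ifs <;> simp
    · split_ifs
      · exact h j
      · simp

/-- Elimination: the last `m` rows are made triangular. -/
theorem elim (g : GL (Fin n) F) (m : ℕ) (hm : m ≤ n) :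
    ∃ k ∈ ZK F n, ∀ i j : Fin n, n - m ≤ i.1 → j < i →
      ((g * k : GL (Fin n) F) : Matrix (Fin n) (Fin n) F) i j = 0 := by
  induction m with
  | zero =>
    refine ⟨1, (ZK F n).one_mem, fun i j hi _ => ?_⟩
    exact absurd i.2 (by omega)
  | succ m ih =>
    obtain ⟨k, hk, hz⟩ := ih (by omega)
    set h := g * k with hh
    obtain ⟨r, hr⟩ : ∃ r : Fin n, r.1 = n - (m + 1) := ⟨⟨n - (m + 1), by omega⟩, rfl⟩
    have hzr : ∀ i j : Fin n, r < i → j < i → (h : Matrix (Fin n) (Fin n) F) i j = 0 := by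
      intro i j hi hj
      refine hz i j ?_ hj
      have : r.1 < i.1 := hi
      omega
    obtain ⟨i0, j1, hi0, hj1, hne⟩ := nonvanish h r
    have hi0r : i0 = r := by
      by_contra hcon
      have hlt : r < i0 := lt_of_le_of_ne hi0 (Ne.symm hcon)
      exact hne (hzr i0 j1 hlt (lt_of_le_of_lt hj1 hlt))
    rw [hi0r] at hne
    obtain ⟨p, hp, hpmax⟩ := Finset.exists_max_image
      (Finset.univ.filter fun j : Fin n => j ≤ r)
      (fun j => ‖(h : Matrix (Fin n) (Fin n) F) r j‖) ⟨j1, by simp [hj1]⟩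
    have hp' : p ≤ r := by simpa using hp
    have hmax : ∀ j : Fin n, j ≤ r → ‖(h : Matrix (Fin n) (Fin n) F) r j‖ ≤
        ‖(h : Matrix (Fin n) (Fin n) F) r p‖ := fun j hj => hpmax j (by simp [hj])
    have hpne : (h : Matrix (Fin n) (Fin n) F) r p ≠ 0 := by
      have h1 := hmax j1 hj1
      have h2 : 0 < ‖(h : Matrix (Fin n) (Fin n) F) r j1‖ := norm_pos_iff.mpr hne
      exact norm_pos_iff.mp (lt_of_lt_of_le h2 h1)
    have hswap : ∀ j : Fin n, j ≤ r → Equiv.swap p r j ≤ r := by
      intro j hj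
      by_cases h1 : j = p
      · rw [h1, Equiv.swap_apply_left]
      · by_cases h2 : j = r
        · rw [h2, Equiv.swap_apply_right]
          exact hp'
        · rw [Equiv.swap_apply_of_ne_of_ne h1 h2]
          exact hj
    set h' := h * swapM p r with hh'
    have hh'e : ∀ i j, (h' : Matrix (Fin n) (Fin n) F) i j =
        (h : Matrix (Fin n) (Fin n) F) i (Equiv.swap p r j) := fun i j => by
      rw [hh', mul_swapM]
    have hd : (h' : Matrix (Fin n) (Fin n) F) r r = (h : Matrix (Fin n) (Fin n) F) r p := by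
      rw [hh'e, Equiv.swap_apply_right]
    let c : Fin n → F := fun j =>
      if j < r then (h' : Matrix (Fin n) (Fin n) F) r j / (h' : Matrix (Fin n) (Fin n) F) r r
      else 0
    have hc0 : c r = 0 := by simp [c]
    have hc1 : ∀ j, ‖c j‖ ≤ 1 := by
      intro j
      simp only [c]
      split_ifs with hj
      · rw [norm_div, div_le_one (by rw [hd]; exact norm_pos_iff.mpr hpne), hd, hh'e]
        exact hmax _ (hswap j hj.le)
      · simp
    refine ⟨k * swapM p r * elemM r c hc0,
      (ZK F n).mul_mem ((ZK F n).mul_mem hk (swapM_mem p r)) (elemM_mem r c hc0 hc1), ?_⟩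
    intro i j hi hj
    have e1 : g * (k * swapM p r * elemM r c hc0) = h' * elemM r c hc0 := by
      rw [hh', hh]
      group
    rw [e1, mul_elemM]
    have hle : r ≤ i := by
      show r.1 ≤ i.1
      have : r.1 = n - (m + 1) := hr
      omega
    rcases lt_or_eq_of_le hle with hlt | heq
    · -- a row which is already triangular
      have hcol : ∀ l : Fin n, l ≤ r → (h' : Matrix (Fin n) (Fin n) F) i l = 0 := by
        intro l hl
        rw [hh'e]
        exact hzr i _ hlt (lt_of_le_of_lt (hswap l hl) hlt)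
      rw [hcol r le_rfl, zero_mul, sub_zero]
      by_cases hji : j ≤ r
      · exact hcol j hji
      · rw [hh'e, Equiv.swap_apply_of_ne_of_ne]
        · exact hzr i j hlt hj
        · rintro rfl
          exact hji hp'
        · rintro rfl
          exact hji le_rfl
    · subst heq
      simp only [c, if_pos hj]
      rw [mul_div_cancel₀]
      · exact sub_self _
      · rw [hd]
        exact hpne

theorem iwasawa (g : GL (Fin n) F) :
    ∃ b ∈ {b : GL (Fin n) F | Upper b}, ∃ k ∈ ZK F n, g = b * k := by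
  obtain ⟨k, hk, hz⟩ := elim g n le_rfl
  refine ⟨g * k, fun i j hij => hz i j (by omega) hij, k⁻¹, (ZK F n).inv_mem hk, by group⟩

omit [IsUltrametricDist F] in
theorem Upper.blockTriangular {b : GL (Fin n) F} (hb : Upper b) :
    (b : Matrix (Fin n) (Fin n) F).BlockTriangular id := fun i j h => hb i j h

omit [IsUltrametricDist F] in
theorem Upper.inv {b : GL (Fin n) F} (hb : Upper b) : Upper b⁻¹ := by
  have h := Matrix.blockTriangular_inv_of_blockTriangular hb.blockTriangular
  intro i j hij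
  rw [Matrix.coe_units_inv]
  exact h hij

omit [IsUltrametricDist F] in
theorem Upper.mul {b c : GL (Fin n) F} (hb : Upper b) (hc : Upper c) : Upper (b * c) := by
  have h := hb.blockTriangular.mul hc.blockTriangular
  intro i j hij
  rw [Units.val_mul]
  exact h hij

omit [IsUltrametricDist F] in
theorem Upper.diag_mul {b c : GL (Fin n) F} (hb : Upper b) (hc : Upper c) (j : Fin n) :
    ((b * c : GL (Fin n) F) : Matrix (Fin n) (Fin n) F) j j =
      (b : Matrix (Fin n) (Fin n) F) j j * (c : Matrix (Fin n) (Fin n) F) j j := by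
  rw [Units.val_mul, Matrix.mul_apply, Finset.sum_eq_single j]
  · intro l _ hl
    rcases lt_or_gt_of_ne hl with h | h
    · rw [hb j l h, zero_mul]
    · rw [hc l j h, mul_zero]
  · simp

omit [IsUltrametricDist F] in
theorem Upper.diag_inv {b : GL (Fin n) F} (hb : Upper b) (j : Fin n) :
    (b : Matrix (Fin n) (Fin n) F) j j * ((b⁻¹ : GL (Fin n) F) : Matrix (Fin n) (Fin n) F) j j
      = 1 := by
  rw [← hb.diag_mul hb.inv j, mul_inv_cancel, Units.val_one, Matrix.one_apply_eq]

omit [IsUltrametricDist F] in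
theorem Upper.diag_ne {b : GL (Fin n) F} (hb : Upper b) (j : Fin n) :
    (b : Matrix (Fin n) (Fin n) F) j j ≠ 0 := left_ne_zero_of_mul_eq_one (hb.diag_inv j)

/-- The character `b ↦ ∏ ‖b_jj‖^{t_j}` of the upper triangular group. -/
noncomputable def chr (t : Fin n → ℝ) (b : GL (Fin n) F) : ℝ :=
  ∏ j, ‖(b : Matrix (Fin n) (Fin n) F) j j‖ ^ t j

omit [IsUltrametricDist F] in
theorem chr_pos (t : Fin n → ℝ) {b : GL (Fin n) F} (hb : Upper b) : 0 < chr t b :=
  Finset.prod_pos fun j _ => Real.rpow_pos_of_pos (norm_pos_iff.mpr (hb.diag_ne j)) _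

omit [IsUltrametricDist F] in
theorem chr_mul (t : Fin n → ℝ) {b c : GL (Fin n) F} (hb : Upper b) (hc : Upper c) :
    chr t (b * c) = chr t b * chr t c := by
  unfold chr
  rw [← Finset.prod_mul_distrib]
  refine Finset.prod_congr rfl fun j _ => ?_
  rw [hb.diag_mul hc, norm_mul, Real.mul_rpow (norm_nonneg _) (norm_nonneg _)]

omit [IsUltrametricDist F] in
theorem chr_of_mem {t : Fin n → ℝ} (ht : ∑ j, t j = 0) {k : GL (Fin n) F} (hk : Upper k)
    (h : ∃ c : F, c ≠ 0 ∧ Intg (c • (k : Matrix (Fin n) (Fin n) F)) ∧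
      Intg (c⁻¹ • ((k⁻¹ : GL (Fin n) F) : Matrix (Fin n) (Fin n) F))) : chr t k = 1 := by
  obtain ⟨c, hc, h1, h2⟩ := h
  have hcpos : 0 < ‖c‖ := norm_pos_iff.mpr hc
  have hd : ∀ j, ‖(k : Matrix (Fin n) (Fin n) F) j j‖ = ‖c‖⁻¹ := by
    intro j
    have hpos : 0 < ‖(k : Matrix (Fin n) (Fin n) F) j j‖ := norm_pos_iff.mpr (hk.diag_ne j)
    have e1 : ‖c‖ * ‖(k : Matrix (Fin n) (Fin n) F) j j‖ ≤ 1 := by
      have := h1 j j
      rwa [Matrix.smul_apply, smul_eq_mul, norm_mul] at this
    have e2 : ‖c‖⁻¹ * ‖(k : Matrix (Fin n) (Fin n) F) j j‖⁻¹ ≤ 1 := by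
      have := h2 j j
      rw [Matrix.smul_apply, smul_eq_mul, norm_mul, norm_inv] at this
      have e3 : ((k⁻¹ : GL (Fin n) F) : Matrix (Fin n) (Fin n) F) j j =
          ((k : Matrix (Fin n) (Fin n) F) j j)⁻¹ :=
        (eq_inv_of_mul_eq_one_right (hk.diag_inv j))
      rwa [e3, norm_inv] at this
    rw [← mul_inv, inv_le_one₀ (mul_pos hcpos hpos)] at e2
    exact eq_inv_of_mul_eq_one_right (le_antisymm e1 e2)
  unfold chr
  simp only [hd]
  rw [← Real.rpow_sum_of_pos (inv_pos.mpr hcpos), ht, Real.rpow_zero]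

/-- The horospherical function `w_t` on the vertices of the building of `PGL_n`,
`w_t(b) = ∏ ‖b_jj‖^{t_j}` for upper triangular `b`. -/
noncomputable def wt (t : Fin n → ℝ) (x : GL (Fin n) F ⧸ ZK F n) : ℝ :=
  haveI := Classical.propDecidable (∃ b : GL (Fin n) F, Upper b ∧ b • base (ZK F n) = x)
  if h : ∃ b : GL (Fin n) F, Upper b ∧ b • base (ZK F n) = x then chr t h.choose else 1

theorem chr_eq {t : Fin n → ℝ} (ht : ∑ j, t j = 0) {c b : GL (Fin n) F} (hc : Upper c)
    (hb : Upper b) (he : c • base (ZK F n) = b • base (ZK F n)) : chr t c = chr t b := by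
  obtain ⟨k, hk, rfl⟩ := smul_base_eq he
  have hku : Upper k := by
    have := hc.inv.mul hb
    rwa [inv_mul_cancel_left] at this
  rw [chr_mul t hc hku, chr_of_mem ht hku hk, mul_one]

theorem wt_upper {t : Fin n → ℝ} (ht : ∑ j, t j = 0) {b : GL (Fin n) F} (hb : Upper b) :
    wt t (b • base (ZK F n)) = chr t b := by
  have h : ∃ c : GL (Fin n) F, Upper c ∧ c • base (ZK F n) = b • base (ZK F n) := ⟨b, hb, rfl⟩
  unfold wt
  rw [dif_pos h]
  exact chr_eq ht h.choose_spec.1 hb h.choose_spec.2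

theorem exists_upper (x : GL (Fin n) F ⧸ ZK F n) :
    ∃ b : GL (Fin n) F, Upper b ∧ b • base (ZK F n) = x := by
  obtain ⟨g, rfl⟩ := exists_rep x
  obtain ⟨b, hb, k, hk, rfl⟩ := iwasawa g
  refine ⟨b, hb, ?_⟩
  rw [mul_smul]
  congr 1
  rw [base, MulAction.Quotient.smul_coe]
  simp only [smul_eq_mul, mul_one]
  rw [QuotientGroup.eq]
  simpa using hk

theorem wt_horo {t : Fin n → ℝ} (ht : ∑ j, t j = 0) :
    Horo {b : GL (Fin n) F | Upper b} (wt t : GL (Fin n) F ⧸ ZK F n → ℝ) where
  pos x := by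
    obtain ⟨b, hb, rfl⟩ := exists_upper x
    rw [wt_upper ht hb]
    exact chr_pos t hb
  mul b hb x := by
    obtain ⟨c, hc, rfl⟩ := exists_upper x
    rw [← mul_smul, wt_upper ht (Upper.mul hb hc), wt_upper ht hb, wt_upper ht hc, chr_mul t hb hc]

/-- The diagonal matrix with entries `d`. -/
def diagM (d : Fin n → F) (hd : ∀ j, d j ≠ 0) : GL (Fin n) F where
  val := Matrix.diagonal d
  inv := Matrix.diagonal fun j => (d j)⁻¹
  val_inv := by
    rw [Matrix.diagonal_mul_diagonal]
    simp [hd]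
  inv_val := by
    rw [Matrix.diagonal_mul_diagonal]
    simp [hd]

theorem gauge_diag {t : Fin n → ℝ} (ht : ∑ j, t j = 0) (g : GL (Fin n) F) (d : Fin n → F)
    (hd : ∀ j, d j ≠ 0) :
    gauge (wt t) (g • diagM d hd • base (ZK F n)) (g • base (ZK F n)) ≤ ∏ j, ‖d j‖ ^ t j := by
  have hu : Upper (diagM d hd) := by
    intro i j hij
    show Matrix.diagonal d i j = 0
    rw [Matrix.diagonal_apply_ne _ hij.ne']
  have h1 : Upper (1 : GL (Fin n) F) := by
    intro i j hij
    rw [Units.val_one, Matrix.one_apply_ne hij.ne']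
  rw [gauge_smul]
  refine (gauge_le (wt_horo ht).pos _ _ 1).trans ?_
  rw [one_smul, wt_upper ht hu, wt_upper ht h1]
  have e1 : chr t (1 : GL (Fin n) F) = 1 := by
    unfold chr
    simp
  rw [e1, div_one]
  unfold chr
  refine le_of_eq (Finset.prod_congr rfl fun j _ => ?_)
  show ‖Matrix.diagonal d j j‖ ^ t j = _
  rw [Matrix.diagonal_apply_eq]

end Pool.Agent.Q212.SC
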